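import Pool.Agent.Lib.MP_743898_gt.CComm

set_option autoImplicit false

namespace Pool.Agent.Results.MP_743898_gt.GMTClassification

open Pool.Agent.Lib.MP_743898_gt Pool.Agent.Lib.MP_743898_gt.Cl

/-- The hyperbolic 3-orbifold groups that are Gehring-Martin-Tan groups are the orbifold groups in
the family `⟨iz, 1 + μ/z⟩` and the partners `⟨f, h r⟩` of the orbifold groups `⟨r, h⟩` generated by
an element `r` of order four and an element `h` of order two, `f` being the unique involution with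
`f r` and `f h` involutions; six explicit parameter values give such groups. -/
theorem result :
    (∀ Γ : Subgroup PSL, (IsOrbifoldGroup Γ ∧ IsGMT Γ) ↔
      ((∃ η ∈ ({Complex.I, -Complex.I, om, -om, om ^ 2, -om ^ 2} : Set ℂ), ∃ μ : ℂ,
          (μ + 1) ^ 2 = 2 * μ * (1 + η) ∧ Conjugate Γ (fam2 μ)) ∨
        (IsOrbifoldGroup Γ ∧ ∃ μ : ℂ, μ ≠ 0 ∧ Conjugate Γ (fam4 μ)) ∨
        ∃ r h f : PSL, orderOf r = 4 ∧ orderOf h = 2 ∧
          IsOrbifoldGroup (Subgroup.closure {r, h}) ∧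
          orderOf f = 2 ∧ orderOf (f * r) = 2 ∧ orderOf (f * h) = 2 ∧
          Γ = Subgroup.closure {f, h * r})) ∧
    ∀ r h : PSL, orderOf r = 4 → orderOf h = 2 → IsOrbifoldGroup (Subgroup.closure {r, h}) →
      (∃! f : PSL, orderOf f = 2 ∧ orderOf (f * r) = 2 ∧ orderOf (f * h) = 2) ∧
        ∀ f : PSL, orderOf f = 2 → orderOf (f * r) = 2 → orderOf (f * h) = 2 →
          ∃ μ : ℂ, μ ≠ 0 ∧ Conjugate (Subgroup.closure {f, h * r}) (fam2 μ) := by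
  refine ⟨fun Γ => ⟨?_, ?_⟩, fun r h a1 a2 o => ?_⟩
  · rintro ⟨h1, h2⟩
    obtain ⟨μ, h0, h3 | h3⟩ := gmt_nec h1.2.1 h1.1 h2
    · exact Or.inr (Or.inl ⟨h1, μ, h0, h3⟩)
    · obtain ⟨F, K, b1, b2, b3⟩ := pair2 h0 h3
      obtain ⟨r, h, f, a1, a2, a3, a4, a5, e⟩ := partner_of_pair b2 b3
      have e' := b1.closure.trans e
      exact Or.inr (Or.inr ⟨r, h, f, a1, a2, (orb_partner (sq_of_ord a2) (sq_of_ord a3) (inv_rel a4)
        (comm_rel a3 a2 a5)).2 (e' ▸ h1), a3, a4, a5, e'⟩)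
  · rintro (⟨η, h1, μ, h2, h3⟩ | ⟨h1, μ, h2, h3⟩ | ⟨r, h, f, a1, a2, o, a3, a4, a5, rfl⟩)
    · obtain ⟨h4, h5⟩ := suffG h1 h2 h3
      obtain ⟨f, g, a1, a2, a3⟩ := pair2 h4 h3
      exact ⟨h5, isGMT_of_pair a1 (Or.inr a2) a3⟩
    · obtain ⟨f, g, a1, a2, a3⟩ := pair4 h2 h3
      exact ⟨h1, isGMT_of_pair a1 (Or.inl a2) a3⟩
    · obtain ⟨F, K, b1, b2, b3⟩ := partner_pair a1 a2 a3 a4 a5
      exact ⟨(orb_partner (sq_of_ord a2) (sq_of_ord a3) (inv_rel a4) (comm_rel a3 a2 a5)).1 o,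
        isGMT_of_pair b1 (Or.inr b2) b3⟩
  · refine ⟨perp_exu a1 o, fun f a3 a4 a5 => ?_⟩
    obtain ⟨F, K, b1, b2, b3⟩ := partner_pair a1 a2 a3 a4 a5
    exact fam2_of b1.repC (toM_det F) (toM_det K) b2 b3

end Pool.Agent.Results.MP_743898_gt.GMTClassification
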