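import Pool.Agent.Lib.MP_743898_gt.Link

set_option autoImplicit false

namespace Pool.Agent.Results.MP_743898_gt.GMTEquality

open Pool.Agent.Lib.MP_743898_gt

/-- A generating pair of a nonelementary discrete subgroup of PSL(2,C) attains equality in the
Gehring-Martin-Tan inequality iff `tr [f,g] = 0` and `tr² f - 1` is a fourth or sixth root of
unity. -/
theorem result (f g : Matrix.SpecialLinearGroup (Fin 2) ℂ)
    (Γ : Subgroup (Matrix.ProjectiveSpecialLinearGroup (Fin 2) ℂ))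
    (hΓ : Γ = Subgroup.closure {(f : Matrix.ProjectiveSpecialLinearGroup (Fin 2) ℂ),
      (g : Matrix.ProjectiveSpecialLinearGroup (Fin 2) ℂ)})
    (hd : IsDiscrete (Γ : Set (Matrix.ProjectiveSpecialLinearGroup (Fin 2) ℂ)))
    (hne : ∀ p : Projectivization ℂ (Fin 2 → ℂ), (MulAction.orbit Γ p).Infinite) :
    (f.1.trace ^ 2 ≠ 1 ∧ ‖f.1.trace ^ 2 - 1‖ + ‖(f⁻¹ * g⁻¹ * f * g).1.trace‖ = 1) ↔
    ((f⁻¹ * g⁻¹ * f * g).1.trace = 0 ∧
      ((f.1.trace ^ 2 - 1) ^ 4 = 1 ∨ (f.1.trace ^ 2 - 1) ^ 6 = 1)) := by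
  subst hΓ
  constructor
  · rintro ⟨h0, he⟩
    have e : M2.gam (toM f) (toM g) + 2 = (f⁻¹ * g⁻¹ * f * g).1.trace := by
      rw [toM_gam]; ring
    have := (good_of_discrete _ hd).gmt_main
      ⟨f, Subgroup.subset_closure (Set.mem_insert _ _), rfl⟩
      ⟨g, Subgroup.subset_closure (Set.mem_insert_of_mem _ rfl), rfl⟩ (not_elem f g hne)
      (by rw [toM_tr]; exact sub_ne_zero.2 h0) (by rw [e, toM_tr]; exact he)
    rwa [e, toM_tr] at this
  · rintro ⟨h1, h3⟩
    have hn : ‖f.1.trace ^ 2 - 1‖ = 1 := by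
      rcases h3 with h3 | h3
      · exact Complex.norm_eq_one_of_pow_eq_one h3 (by norm_num)
      · exact Complex.norm_eq_one_of_pow_eq_one h3 (by norm_num)
    refine ⟨fun h => ?_, by rw [h1, hn]; simp⟩
    rw [h] at hn
    simp at hn

end Pool.Agent.Results.MP_743898_gt.GMTEquality
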