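import Pool.Agent.Lib.MP_743898_gtN.Last

set_option autoImplicit false

namespace Pool.Agent.Results.MP_743898_gt.TanClassification

open Pool.Agent.Lib.MP_743898_gt Pool.Agent.Lib.MP_743898_gt.Cl Pool.Agent.Lib.MP_743898_gtN

/-- The hyperbolic 3-orbifold groups that are Tan groups: four closed groups, ten cusped arithmetic
groups, all pairwise non-conjugate, one cusped non-arithmetic group, and the cusped non-arithmetic
orbifold groups generated by `z ↦ iz` and `z ↦ 1 + 1/(cz)` with `|c| > 13/5`. -/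
theorem result (Γ : Subgroup PSL) :
    ((IsOrbifoldGroup Γ ∧ IsTan Γ) ↔
      ((∃ k, Conjugate Γ (closedTan k)) ∨ (∃ k, Conjugate Γ (cuspTan k)) ∨ Conjugate Γ grpN ∨
        (IsOrbifoldGroup Γ ∧ ¬ Cocompact Γ ∧ ¬ CuspArith Γ ∧
          ∃ c : ℂ, 13 / 5 < ‖c‖ ∧ Conjugate Γ (fam4 c⁻¹)))) ∧
    (∀ k, Conjugate Γ (closedTan k) →
      Cocompact Γ ∧ ¬ CuspArith Γ ∧ ∀ j, Conjugate Γ (closedTan j) → j = k) ∧
    (∀ k, Conjugate Γ (cuspTan k) →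
      ¬ Cocompact Γ ∧ CuspArith Γ ∧ ∀ j, Conjugate Γ (cuspTan j) → j = k) ∧
    (Conjugate Γ grpN → ¬ Cocompact Γ ∧ ¬ CuspArith Γ) ∧
    (∀ c : ℂ, c ≠ 0 → ‖c‖ ≤ 13 / 5 → IsOrbifoldGroup Γ → Conjugate Γ (fam4 c⁻¹) →
      (∃ k, Conjugate Γ (cuspTan k)) ∨ Conjugate Γ grpN) := by
  have tan : ∀ {c : ℂ}, c ≠ 0 → Conjugate Γ (fam4 c⁻¹) → IsTan Γ := fun h2 h3 => by
    obtain ⟨f, g, a1, a2, a3⟩ := pair4 (inv_ne_zero h2) h3
    exact isTan_of_pair (ζ := -1) a1 a2 (by rw [a3]; norm_num) (by simp)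
  refine ⟨⟨?_, ?_⟩, fun k h => ⟨closed_cocompact h, closed_not_arith h,
      fun j hj => cls_inj (closed_cls hj h) (closed_cls h hj)⟩,
    fun k h => ⟨cusp_not_cocompact h, cusp_arith h, fun j hj => cusp_inj hj h⟩,
    fun h => ⟨not_cocompact4 (orb_N h).2.1 (inv_ne_zero c0_ne) (grpN_eq ▸ h),
      not_arith_c0 (grpN_eq ▸ h)⟩, fun c h0 h2 h1 h => small h1 h0 h h2⟩
  · rintro ⟨h1, h2⟩
    rcases tan_nec h1.2.1 h1.1 h2 with ⟨ζ, hζ, h⟩ | h | ⟨μ, h0, h⟩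
    · rcases hζ with rfl | rfl | rfl | rfl | rfl
      · exact Or.inr (Or.inl ⟨0, h⟩)
      · exact Or.inr (Or.inl ⟨1, h⟩)
      · exact Or.inl ⟨2, h⟩
      · exact Or.inl ⟨3, h⟩
      · exact Or.inl ⟨1, h⟩
    · exact Or.inl ⟨0, h⟩
    · by_cases ha : CuspArith Γ
      · exact Or.inr (Or.inl (cusp_nec ha h0 h))
      have h' : Conjugate Γ (fam4 μ⁻¹⁻¹) := by rwa [inv_inv]
      rcases le_or_gt ‖μ⁻¹‖ (13 / 5) with hc | hc
      · exact Or.inr ((small h1 (inv_ne_zero h0) h' hc).imp_right Or.inl)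
      · exact Or.inr (Or.inr (Or.inr ⟨h1, not_cocompact4 h1.2.1 h0 h, ha, μ⁻¹, hc, h'⟩))
  · rintro (⟨k, h⟩ | ⟨k, h⟩ | h | ⟨h1, -, -, c, h2, h3⟩)
    · exact closed_suff h
    · exact cusp_suff h
    · exact ⟨orb_N h, tan c0_ne (grpN_eq ▸ h)⟩
    · exact ⟨h1, tan (norm_pos_iff.1 (by linarith)) h3⟩

end Pool.Agent.Results.MP_743898_gt.TanClassification
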